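import Pool.Agent.Zk28.TF.Psef2
import Pool.Agent.Zk28.TF.NDefs

/-!
Tensors with values in a group of invariant divisor classes (generalization of `WT`, `Many`, `Psef`, `Psef2`).
-/

set_option autoImplicit false
set_option linter.unusedSectionVars false

open FF Pool.Agent.W602.GT

namespace Pool.Agent.Zk17.TF

open Pool.Agent.Zk28.TS Pool.Agent.Zk28.TF

/-- hypothesis: tensors with values in `γ - E`, `γ` in `A`, `E ≥ 0` with an invariant class, have `E = 0` -/
def NoZeros {K : Type} [Field K] [Algebra ℂ K] (n : ℕ) (X : Set (Place ℂ K)) (δ : Place ℂ K → ℝ)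
    (G : Set (K ≃ₐ[ℂ] K)) (A : Set (Place ℂ K → ℝ)) : Prop :=
  ∀ (m : ℕ) (γ E : Place ℂ K → ℝ) (t : MTensor K (Fin m)), 0 < m → t ≠ 0 → γ ∈ A →
    InvariantClass n X G E → (∀ P ∈ X, Divisorial n P → 0 ≤ E P) →
    MAdapted n X δ (fun P => γ P - E P) t → ∀ P ∈ X, Divisorial n P → E P = 0

section groups

variable {K : Type} [Field K] [Algebra ℂ K] {n : ℕ} {X : Set (Place ℂ K)}
  {G : Set (K ≃ₐ[ℂ] K)} {L : Place ℂ K → ℝ} {A : Set (Place ℂ K → ℝ)}

theorem sum_mem {ι : Type} (hA : NullGroup n X G L A) (S : Finset ι) {b : ι → Place ℂ K → ℝ}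
    (hb : ∀ i, b i ∈ A) : (fun P => ∑ i ∈ S, b i P) ∈ A := by
  classical
  induction S using Finset.induction_on with
  | empty =>
    have h1 := hA.rat L hA.mem 0
    convert h1 using 1
    funext P
    simp
  | insert i S hi ih =>
    have h1 := hA.add _ (hb i) _ ih
    convert h1 using 1
    funext P
    rw [Finset.sum_insert hi]

end groups

section transport

variable {K : Type} [Field K] [Algebra ℂ K] {n : ℕ}

/-- The pull-back of tensors with values in an invariant class. -/
theorem pull_mem {X : Set (Place ℂ K)}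
    {δ : Place ℂ K → ℝ} {G : Set (K ≃ₐ[ℂ] K)} {β : Place ℂ K → ℝ} (hβ : InvariantClass n X G β)
    {σ : K ≃ₐ[ℂ] K} (hσG : σ ∈ G)
    (hσ : MPreserves X δ (fun _ => (0 : ℝ)) σ)
    (τ : AlgebraicClosure K ≃+* AlgebraicClosure K)
    (hτ : ∀ x : K, τ (algebraMap K _ x) = algebraMap K _ (σ x)) {m : ℕ}
    {s : MTensor K (Fin m)} (hs : MAdapted n X δ β s) :
    ∃ ζ : AlgebraicClosure K, ζ ≠ 0 ∧
      MAdapted n X δ β (ζ • mpull σ τ hτ s) := by
  obtain ⟨N, hN, z, hz, hzk⟩ := hβ σ hσG
  obtain ⟨ζ, hζ⟩ := IsAlgClosed.exists_pow_nat_eq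
    (algebraMap K (AlgebraicClosure K) z) hN
  have hζ0 : ζ ≠ 0 := by
    intro h0
    rw [h0, zero_pow hN.ne'] at hζ
    exact hz ((map_eq_zero _).mp hζ.symm)
  refine ⟨ζ, hζ0, ?_⟩
  intro P hPX hP D hD
  obtain ⟨Q, hQX, hQd, hδ, -, hQ, hreg, hlog⟩ := place_transport (n := n) hσ hPX hP
  have h1 := hs Q hQX hQd (fun a => conj σ (D a)) fun a => hreg _ (hD a)
  have h2 : {a | ¬ DerLog Q (conj σ (D a))} = {a | ¬ DerLog P (D a)} := by
    ext a
    exact not_congr (hlog _)
  have h3 := hzk P hPX hP Q hQX hQd hQ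
  have hN' : (N : ℝ) ≠ 0 := by exact_mod_cast hN.ne'
  have h4 : β Q = β P + P.ord z / N := by
    rw [← h3]
    field_simp
    ring
  rw [h2, hδ, h4] at h1
  have h5 : AlgOrd P _ (mpull σ τ hτ s D) := h1.image σ τ hτ hQ
    (RingEquiv.apply_symm_apply _ _)
  have h6 := AlgOrd.mul_root h5 hN hz hζ
  change AlgOrd P _ (ζ * mpull σ τ hτ s D)
  convert h6 using 1
  ring

end transport

section datum

variable {K : Type} [Field K] [Algebra ℂ K] {n p d : ℕ}

/-- The data of a Galois stable and `G`-stable space of tensors. -/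
structure Datum (n : ℕ) (X : Set (Place ℂ K)) (δ : Place ℂ K → ℝ)
    (Bs : Set (Place ℂ K → ℝ)) (s : Fin d → MTensor K (Fin p)) (b : Fin d → Place ℂ K → ℝ)
    (c : AlgebraicClosure K) (σ : STensor K (Fin d × Fin p)) : Prop where
  mem : ∀ i, b i ∈ Bs
  adapted : ∀ i, MAdapted n X δ (b i) (s i)
  indep : LinearIndependent (AlgebraicClosure K) s
  span : ∀ β ∈ Bs, ∀ t : MTensor K (Fin p), MAdapted n X δ β t →
    t ∈ Submodule.span (AlgebraicClosure K) (Set.range s)
  c_ne : c ≠ 0
  sigma_ne : σ ≠ 0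
  wedge_eq : ∀ D, wedge s D = c * algebraMap K _ (σ D)

/-- Existence. -/
theorem exists_datum {X : Set (Place ℂ K)} {δ : Place ℂ K → ℝ}
    {Bs : Set (Place ℂ K → ℝ)} {s : Fin d → MTensor K (Fin p)} {b : Fin d → Place ℂ K → ℝ}
    (h1 : ∀ i, b i ∈ Bs) (h2 : ∀ i, MAdapted n X δ (b i) (s i))
    (h3 : LinearIndependent (AlgebraicClosure K) s)
    (h4 : ∀ β ∈ Bs, ∀ t : MTensor K (Fin p), MAdapted n X δ β t →
      t ∈ Submodule.span (AlgebraicClosure K) (Set.range s)) :
    ∃ c σ, Datum n X δ Bs s b c σ := by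
  obtain ⟨c, σ, h5, h6, h7⟩ := exists_rational s h3 fun τ i =>
    h4 _ (h1 i) _ (MAdapted.gal (h2 i) τ)
  exact ⟨c, σ, h1, h2, h3, h4, h5, h6, h7⟩

variable {X : Set (Place ℂ K)} {δ : Place ℂ K → ℝ}
  {G : Set (K ≃ₐ[ℂ] K)} {Bs : Set (Place ℂ K → ℝ)} {s : Fin d → MTensor K (Fin p)}
  {b : Fin d → Place ℂ K → ℝ} {c : AlgebraicClosure K} {σ : STensor K (Fin d × Fin p)}

/-- The orders. -/
theorem Datum.bound (h : Datum n X δ Bs s b c σ) {P : Place ℂ K} (hPX : P ∈ X)
    (hP : Divisorial n P) {x : ℝ} (hx : x ∈ vals δ σ P) :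
    AlgOrd P (-(∑ i, b i P + x)) c := by
  obtain ⟨D, hD, hσD, rfl⟩ := hx
  have h1 := wedge_adapted' s b h.adapted P hPX hP D hD
  rw [h.wedge_eq] at h1
  have h2 := h1.mul (AlgOrd.of_GR (P := P) (r := -(P.ord (σ D) : ℝ)) (f := (σ D)⁻¹)
    (Or.inr (by rw [P.ord_inv]; push_cast; exact le_rfl)))
  have h3 : c * algebraMap K (AlgebraicClosure K) (σ D) *
      algebraMap K (AlgebraicClosure K) (σ D)⁻¹ = c := by
    rw [mul_assoc, ← map_mul, mul_inv_cancel₀ hσD, map_one, mul_one]
  rw [h3] at h2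
  convert h2 using 1
  ring

theorem Datum.bdd (h : Datum n X δ Bs s b c σ) {P : Place ℂ K} (hPX : P ∈ X)
    (hP : Divisorial n P) : BddBelow (vals δ σ P) := by
  obtain ⟨N, y, hN, hy, hb⟩ := exists_alg_norm h.c_ne
  have hN' : (0 : ℝ) < N := by exact_mod_cast hN
  refine ⟨-(P.ord y : ℝ) / N - ∑ i, b i P, fun x hx => ?_⟩
  have h1 := (hb P _ (h.bound hPX hP hx)).1
  rw [sub_le_iff_le_add, div_le_iff₀ hN']
  nlinarith

theorem Datum.order (h : Datum n X δ Bs s b c σ) [Algebra.EssFiniteType ℂ K]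
    (htr : Algebra.trdeg ℂ K = n) {P : Place ℂ K} (hPX : P ∈ X) (hP : Divisorial n P) :
    AlgOrd P (-(∑ i, b i P + vT δ σ P)) c := by
  refine AlgOrd.limit fun ε hε => ?_
  obtain ⟨x, hx, hxε⟩ := exists_lt_of_csInf_lt (vals_nonempty htr δ h.sigma_ne hP)
    (show sInf (vals δ σ P) < vT δ σ P + ε from lt_add_of_pos_right _ hε)
  exact (h.bound hPX hP hx).mono (by linarith)

/-- The transport. -/
theorem Datum.transport (h : Datum n X δ Bs s b c σ) (hBs : ∀ β ∈ Bs, InvariantClass n X G β) {g : K ≃ₐ[ℂ] K}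
    (hgG : g ∈ G)
    (hg : MPreserves X δ (fun _ => (0 : ℝ)) g) :
    ∃ κ : K, κ ≠ 0 ∧ ∀ D, σ (fun x => conj g (D x)) = g (κ * σ D) := by
  classical
  obtain ⟨τ, hτ⟩ := exists_lift g
  choose ζ hζ hζs using fun i => pull_mem (hBs _ (h.mem i)) hgG hg τ hτ (h.adapted i)
  choose A hA using fun i => (Submodule.mem_span_range_iff_exists_fun _).mp
    (h.span _ (h.mem i) _ (hζs i))
  have h1 := wedge_lin s (fun i => ζ i • mpull g τ hτ (s i)) (Matrix.of A) fun i => (hA i).symm
  have h2 : ∀ D, wedge (fun i => ζ i • mpull g τ hτ (s i)) D =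
      (∏ i, ζ i) * τ.symm (wedge s fun x => conj g (D x)) := by
    intro D
    rw [wedge_apply, wedge_apply]
    have h3 := (τ.symm : AlgebraicClosure K →+* AlgebraicClosure K).map_det
      (Matrix.of fun i j => s i fun a => conj g (D (j, a)))
    change _ = (∏ i, ζ i) * (τ.symm : AlgebraicClosure K →+* AlgebraicClosure K) _
    rw [h3, ← Matrix.det_mul_column]
    rfl
  have hτs : ∀ x : K, τ.symm (algebraMap K _ x) = algebraMap K _ (g.symm x) := by
    intro x
    rw [RingEquiv.symm_apply_eq, hτ, AlgEquiv.apply_symm_apply]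
  have h3 : ∀ D, (∏ i, ζ i) * (τ.symm c * algebraMap K _ (g.symm (σ fun x => conj g (D x)))) =
      (Matrix.of A).det * (c * algebraMap K _ (σ D)) := by
    intro D
    have h4 := h2 D
    rw [h1, h.wedge_eq, map_mul, hτs] at h4
    rw [← h4, ← h.wedge_eq]
    rfl
  have hZ : (∏ i, ζ i) ≠ 0 := Finset.prod_ne_zero_iff.mpr fun i _ => hζ i
  have hτc : τ.symm c ≠ 0 := (map_ne_zero_iff _ τ.symm.injective).mpr h.c_ne
  obtain ⟨D1, hD1⟩ : ∃ D, σ D ≠ 0 := by
    by_contra hno
    push Not at hno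
    exact h.sigma_ne (MultilinearMap.ext hno)
  have hinj := (algebraMap K (AlgebraicClosure K)).injective
  let κ : K := g.symm (σ fun x => conj g (D1 x)) / σ D1
  have hκ : ∀ D, g.symm (σ fun x => conj g (D x)) = κ * σ D := by
    intro D
    apply hinj
    have h4 := h3 D
    have h5 := h3 D1
    have h6 : algebraMap K (AlgebraicClosure K) (σ D1) ≠ 0 := (map_ne_zero _).mpr hD1
    simp only [κ]
    rw [map_mul, map_div₀]
    have h7 : (∏ i, ζ i) * τ.symm c ≠ 0 := mul_ne_zero hZ hτc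
    apply mul_left_cancel₀ h7
    rw [mul_assoc, h4]
    have h8 : (∏ i, ζ i) * τ.symm c * (algebraMap K (AlgebraicClosure K)
        (g.symm (σ fun x => conj g (D1 x))) / algebraMap K (AlgebraicClosure K) (σ D1) *
          algebraMap K (AlgebraicClosure K) (σ D)) = (∏ i, ζ i) * (τ.symm c *
          algebraMap K (AlgebraicClosure K) (g.symm (σ fun x => conj g (D1 x)))) /
          algebraMap K (AlgebraicClosure K) (σ D1) *
          algebraMap K (AlgebraicClosure K) (σ D) := by ring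
    rw [h8, h5]
    field_simp
  have hκ' : ∀ D, σ (fun x => conj g (D x)) = g (κ * σ D) := by
    intro D
    rw [← hκ, AlgEquiv.apply_symm_apply]
  refine ⟨κ, ?_, hκ'⟩
  intro h0
  apply hD1
  have h4 := hκ' fun x => conj g.symm (D1 x)
  simp only [conj_conj_symm] at h4
  rw [h4, h0, zero_mul, map_zero]

/-- The class of the divisor is invariant. -/
theorem Datum.inv (h : Datum n X δ Bs s b c σ) [Algebra.EssFiniteType ℂ K]
    (htr : Algebra.trdeg ℂ K = n) (hBs : ∀ β ∈ Bs, InvariantClass n X G β)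
    (hG : ∀ g ∈ G, MPreserves X δ (fun _ => (0 : ℝ)) g) : InvariantClass n X G (vT δ σ) := by
  classical
  intro g hg
  obtain ⟨κ, hκ, htrans⟩ := h.transport hBs hg (hG g hg)
  refine ⟨1, Nat.one_pos, κ, hκ, fun P hPX hP Q hQX hQ hPQ => ?_⟩
  obtain ⟨Q', hQ'X, hQ'd, hδ', -, hQ', hreg, hlog⟩ := place_transport (n := n) (hG g hg) hPX hP
  have hQQ : Q' = Q := by
    apply Place.ext
    funext f
    have h4 := hQ' (g.symm f)
    have h5 := hPQ (g.symm f)
    rw [AlgEquiv.apply_symm_apply] at h4 h5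
    rw [h4, h5]
  subst hQQ
  have hncard : ∀ D : Fin d × Fin p → Derivation ℂ K K,
      {a | ¬ DerLog Q' (conj g (D a))} = {a | ¬ DerLog P (D a)} := by
    intro D
    ext a
    exact not_congr (hlog _)
  have hval : ∀ D : Fin d × Fin p → Derivation ℂ K K, σ D ≠ 0 →
      (Q'.ord (σ fun x => conj g (D x)) : ℝ) = P.ord κ + P.ord (σ D) := by
    intro D hD
    rw [htrans, hQ', P.ord_mul hκ hD]
    push_cast
    rfl
  have hne1 := vals_nonempty htr δ h.sigma_ne hP
  have hne2 := vals_nonempty htr δ h.sigma_ne hQ'd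
  have hb1 := h.bdd hPX hP
  have hb2 := h.bdd hQ'X hQ'd
  have h1 : vT δ σ Q' ≤ vT δ σ P + P.ord κ := by
    rw [← sub_le_iff_le_add]
    refine le_csInf hne1 ?_
    rintro x ⟨D, hD, hσD, rfl⟩
    have hne : σ (fun x => conj g (D x)) ≠ 0 := by
      rw [htrans]
      exact (map_ne_zero_iff _ g.injective).mpr (mul_ne_zero hκ hσD)
    have h2 := csInf_le hb2 ⟨fun x => conj g (D x), fun a => hreg _ (hD a), hne, rfl⟩
    rw [hval D hσD, hncard, hδ'] at h2
    change vT δ σ Q' ≤ _ at h2
    linarith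
  have h2 : vT δ σ P + P.ord κ ≤ vT δ σ Q' := by
    refine le_csInf hne2 ?_
    rintro x ⟨D', hD', hσD', rfl⟩
    let D : Fin d × Fin p → Derivation ℂ K K := fun x => conj g.symm (D' x)
    have hDD : (fun x => conj g (D x)) = D' := funext fun x => conj_conj_symm g _
    have hσD : σ D ≠ 0 := by
      intro h0
      apply hσD'
      rw [← hDD, htrans, h0, mul_zero, map_zero]
    have h3 := csInf_le hb1 ⟨D, fun a => derReg_symm hQ' (hD' a), hσD, rfl⟩
    have h4 := hval D hσD
    have h5 := hncard D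
    rw [hDD] at h4
    simp only [D, conj_conj_symm] at h5
    change vT δ σ P ≤ _ at h3
    rw [h4, h5, hδ']
    linarith
  rw [Nat.cast_one, one_mul]
  linarith

/-- Other bases. -/
theorem Datum.other (h : Datum n X δ Bs s b c σ) {s' : Fin d → MTensor K (Fin p)}
    {b' : Fin d → Place ℂ K → ℝ} (h1 : ∀ i, b' i ∈ Bs)
    (h2 : ∀ i, MAdapted n X δ (b' i) (s' i))
    (h3 : LinearIndependent (AlgebraicClosure K) s') {A : Fin d → Fin d → AlgebraicClosure K}
    (hA : ∀ i, s' i = ∑ j, A i j • s j) :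
    Datum n X δ Bs s' b' ((Matrix.of A).det * c) σ := by
  classical
  have h4 := wedge_lin s s' (Matrix.of A) hA
  have h5 : ∀ D, wedge s' D = (Matrix.of A).det * c * algebraMap K _ (σ D) := by
    intro D
    rw [h4, mul_assoc, ← h.wedge_eq]
    rfl
  have hdet : (Matrix.of A).det ≠ 0 := by
    intro h0
    obtain ⟨D, hD⟩ := exists_wedge_ne s' h3
    apply hD
    rw [h5, h0, zero_mul, zero_mul]
  refine ⟨h1, h2, h3, fun r hr t ht => ?_, mul_ne_zero hdet h.c_ne, h.sigma_ne, h5⟩
  have h6 : Submodule.span (AlgebraicClosure K) (Set.range s') =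
      Submodule.span (AlgebraicClosure K) (Set.range s) := by
    have : FiniteDimensional (AlgebraicClosure K)
        (Submodule.span (AlgebraicClosure K) (Set.range s)) :=
      FiniteDimensional.span_of_finite _ (Set.finite_range s)
    refine Submodule.eq_of_le_of_finrank_eq (Submodule.span_le.mpr ?_) ?_
    · rintro _ ⟨i, rfl⟩
      exact h.span _ (h1 i) _ (h2 i)
    · rw [finrank_span_eq_card h3, finrank_span_eq_card h.indep]
  rw [h6]
  exact h.span r hr t ht

end datum

section many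

variable {K : Type} [Field K] [Algebra ℂ K] {n p d : ℕ}
  {X : Set (Place ℂ K)} {δ : Place ℂ K → ℝ}
  {G : Set (K ≃ₐ[ℂ] K)} {Bs : Set (Place ℂ K → ℝ)} {s : Fin d → MTensor K (Fin p)}
  {b : Fin d → Place ℂ K → ℝ} {c : AlgebraicClosure K} {σ : STensor K (Fin d × Fin p)}

/-- The effective divisor of a basis. -/
noncomputable def Ed (δ : Place ℂ K → ℝ) (σ : STensor K (Fin d × Fin p))
    (b : Fin d → Place ℂ K → ℝ) (N : ℕ) (y : K) : Place ℂ K → ℝ :=
  fun P => ∑ i, b i P + vT δ σ P + P.ord y / N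

/-- The divisors are effective. -/
theorem Datum.nonneg (h : Datum n X δ Bs s b c σ) [Algebra.EssFiniteType ℂ K]
    (htr : Algebra.trdeg ℂ K = n) {N : ℕ} (hN : 0 < N) {y : K}
    (hNy : ∀ (P : Place ℂ K) (r : ℝ), AlgOrd P r c → N * r ≤ P.ord y) :
    ∀ P ∈ X, Divisorial n P → 0 ≤ Ed δ σ b N y P := by
  intro P hPX hP
  have h1 := hNy P _ (h.order htr hPX hP)
  have hN' : (0 : ℝ) < N := by exact_mod_cast hN
  unfold Ed
  have h2 : -(∑ i, b i P + vT δ σ P) ≤ P.ord y / N := by
    rw [le_div_iff₀ hN', mul_comm]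
    exact h1
  linarith

/-- The tensor of a datum. -/
theorem Datum.tensor (h : Datum n X δ Bs s b c σ)
    {N : ℕ} (hN : 0 < N) {y : K} (hy : y ≠ 0) :
    ∃ t : MTensor K (Fin (d * p)), t ≠ 0 ∧ MAdapted n X δ
        (fun P => ∑ i, b i P - Ed δ σ b N y P) t := by
  classical
  have hN' : (N : ℝ) ≠ 0 := by exact_mod_cast hN.ne'
  obtain ⟨ζ, hζ⟩ := IsAlgClosed.exists_pow_nat_eq (algebraMap K (AlgebraicClosure K) y) hN
  have hζ0 : ζ ≠ 0 := by
    intro h0
    rw [h0, zero_pow hN.ne'] at hζ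
    exact hy ((map_eq_zero _).mp hζ.symm)
  let ε : Fin d × Fin p ≃ Fin (d * p) := finProdFinEquiv
  let t : MTensor K (Fin (d * p)) :=
    ζ • (Algebra.linearMap K (AlgebraicClosure K)).compMultilinearMap (σ.domDomCongr ε)
  have htv : ∀ D, t D = ζ * algebraMap K _ (σ fun x => D (ε x)) := fun D => rfl
  refine ⟨t, ?_, ?_⟩
  · intro h0
    apply h.sigma_ne
    ext D
    have h1 := congrArg (fun t => t fun a => D (ε.symm a)) h0
    change t _ = (0 : AlgebraicClosure K) at h1
    rw [htv] at h1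
    have h2 := (map_eq_zero _).mp ((mul_eq_zero.mp h1).resolve_left hζ0)
    have h3 : (fun x => D (ε.symm (ε x))) = D := funext fun x => by rw [Equiv.symm_apply_apply]
    change σ (fun x => D (ε.symm (ε x))) = 0 at h2
    rw [h3] at h2
    exact h2
  · intro P hPX hP D hD
    rw [htv]
    have h1 := vT_le (h.bdd hPX hP) (D := fun x => D (ε x)) fun x => hD _
    have h2 := AlgOrd.mul_root (AlgOrd.of_GR h1) hN hy hζ
    have h3 : ({x | ¬ DerLog P (D (ε x))}.ncard : ℝ) = ({a | ¬ DerLog P (D a)}.ncard : ℝ) := by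
      rw [ncard_eq' fun x => ¬ DerLog P (D (ε x)), ncard_eq' fun a => ¬ DerLog P (D a)]
      convert Equiv.sum_comp ε fun a => if ¬ DerLog P (D a) then (1 : ℝ) else 0
    rw [h3] at h2
    convert h2 using 1
    unfold Ed
    ring

/-- The class of the divisor is invariant. -/
theorem Datum.invE (h : Datum n X δ Bs s b c σ) [Algebra.EssFiniteType ℂ K]
    (htr : Algebra.trdeg ℂ K = n) {L : Place ℂ K → ℝ} {A : Set (Place ℂ K → ℝ)}
    (hA : NullGroup n X G L A) (hBA : Bs ⊆ A)
    (hG : ∀ g ∈ G, MPreserves X δ (fun _ => (0 : ℝ)) g) {N : ℕ} (hN : 0 < N) {y : K}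
    (hy : y ≠ 0) : InvariantClass n X G (Ed δ σ b N y) := by
  have h0 : InvariantClass n X G fun P => ∑ i, b i P :=
    hA.inv _ (sum_mem hA Finset.univ fun i => hBA (h.mem i))
  have h1 := inv_comb (inv_comb h0 (h.inv htr (fun β hβ => hA.inv β (hBA hβ)) hG)
    1 1) (inv_principal (n := n) hG hN hy) 1 1
  convert h1 using 1
  funext P
  unfold Ed
  push_cast
  ring

/-- The order of the coefficient if one of the tensors vanishes along a divisor. -/
theorem Datum.order_zero (h : Datum n X δ Bs s b c σ) [Algebra.EssFiniteType ℂ K]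
    (htr : Algebra.trdeg ℂ K = n) {i0 : Fin d} {E : Place ℂ K → ℝ}
    (hE : MAdapted n X δ (fun P => b i0 P - E P) (s i0))
    {P : Place ℂ K} (hPX : P ∈ X) (hP : Divisorial n P) :
    AlgOrd P (-(∑ i, b i P + vT δ σ P) + E P) c := by
  classical
  have hw := wedge_adapted' s (fun i P => b i P - if i = i0 then E P else 0)
    (fun i => by
      by_cases hi : i = i0
      · subst hi
        simpa using hE
      · simpa [hi] using h.adapted i)
  refine AlgOrd.limit fun ε hε => ?_
  obtain ⟨x, ⟨D, hD, hσD, rfl⟩, hxε⟩ := exists_lt_of_csInf_lt (vals_nonempty htr δ h.sigma_ne hP)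
    (show sInf (vals δ σ P) < vT δ σ P + ε from lt_add_of_pos_right _ hε)
  have h1 := hw P hPX hP D hD
  rw [h.wedge_eq] at h1
  have h2 := h1.mul (AlgOrd.of_GR (P := P) (r := -(P.ord (σ D) : ℝ)) (f := (σ D)⁻¹)
    (Or.inr (by rw [P.ord_inv]; push_cast; exact le_rfl)))
  have h3 : c * algebraMap K (AlgebraicClosure K) (σ D) *
      algebraMap K (AlgebraicClosure K) (σ D)⁻¹ = c := by
    rw [mul_assoc, ← map_mul, mul_inv_cancel₀ hσD, map_one, mul_one]
  rw [h3] at h2
  refine h2.mono ?_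
  beta_reduce
  rw [Finset.sum_sub_distrib]
  simp only [Finset.sum_ite_eq', Finset.mem_univ, if_true]
  linarith

/-- The exchange of a tensor of a basis. -/
theorem Datum.exchange (h : Datum n X δ Bs s b c σ) {t : MTensor K (Fin p)}
    {r : Place ℂ K → ℝ} (hr : r ∈ Bs) (ht : MAdapted n X δ r t)
    {B : Fin d → AlgebraicClosure K} (hB : ∑ i, B i • s i = t) {i0 : Fin d} (hB0 : B i0 ≠ 0) :
    Datum n X δ Bs (Function.update s i0 t) (Function.update b i0 r) (B i0 * c) σ := by
  classical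
  let A : Fin d → Fin d → AlgebraicClosure K := fun i j =>
    if i = i0 then B j else if i = j then 1 else 0
  have hdet : (Matrix.of A).det = B i0 := by
    have h1 : Matrix.of A = (1 : Matrix (Fin d) (Fin d) (AlgebraicClosure K)).updateRow i0
        B := by
      ext i j
      by_cases hi : i = i0
      · subst hi
        rw [Matrix.updateRow_self]
        simp [A]
      · rw [Matrix.updateRow_ne hi]
        simp [A, hi, Matrix.one_apply]
    rw [h1, ← Matrix.det_transpose, ← Matrix.updateCol_transpose, Matrix.transpose_one,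
      ← Matrix.cramer_apply, Matrix.cramer_one]
    rfl
  have hs' : ∀ i, Function.update s i0 t i = ∑ j, A i j • s j := by
    intro i
    by_cases hi : i = i0
    · subst hi
      simp only [A, Function.update_self, if_true]
      exact hB.symm
    · simp only [A, Function.update_of_ne hi, if_neg hi]
      simp
  have hli' : LinearIndependent (AlgebraicClosure K) (Function.update s i0 t) := by
    have hsli := h.indep
    rw [Fintype.linearIndependent_iff] at hsli ⊢
    intro g hg
    have h1 : ∀ j, ∑ i, g i * A i j = 0 := by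
      refine hsli _ ?_
      rw [← hg]
      simp only [Finset.sum_smul]
      rw [Finset.sum_comm]
      refine Finset.sum_congr rfl fun i _ => ?_
      rw [hs' i, Finset.smul_sum]
      exact Finset.sum_congr rfl fun j _ => by rw [smul_smul]
    have h2 : Matrix.vecMul g (Matrix.of A) = 0 := funext h1
    have h3 := Matrix.eq_zero_of_vecMul_eq_zero (by rw [hdet]; exact hB0) h2
    intro i
    exact congrFun h3 i
  have h' := h.other (s' := Function.update s i0 t) (b' := Function.update b i0 r)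
    (fun i => by
      by_cases hi : i = i0
      · subst hi
        rw [Function.update_self]
        exact hr
      · rw [Function.update_of_ne hi]
        exact h.mem i)
    (fun i => by
      by_cases hi : i = i0
      · subst hi
        rw [Function.update_self, Function.update_self]
        exact ht
      · rw [Function.update_of_ne hi, Function.update_of_ne hi]
        exact h.adapted i) hli' hs'
  rw [hdet] at h'
  exact h'

/-- The divisor of a datum is zero. -/
theorem Datum.zero (h : Datum n X δ Bs s b c σ) [Algebra.EssFiniteType ℂ K]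
    (htr : Algebra.trdeg ℂ K = n) {L : Place ℂ K → ℝ} {A : Set (Place ℂ K → ℝ)}
    (hA : NullGroup n X G L A) (hBA : Bs ⊆ A)
    (hG : ∀ g ∈ G, MPreserves X δ (fun _ => (0 : ℝ)) g) (H : NoZeros n X δ G A)
    (hp : 0 < p) (hd : 0 < d) {N : ℕ} (hN : 0 < N) {y : K} (hy : y ≠ 0)
    (hNy : ∀ (P : Place ℂ K) (r : ℝ), AlgOrd P r c → N * r ≤ P.ord y) :
    ∀ P ∈ X, Divisorial n P → Ed δ σ b N y P = 0 := by
  obtain ⟨t, ht, ht'⟩ := h.tensor hN hy
  exact H (d * p) (fun P => ∑ i, b i P) (Ed δ σ b N y) t (Nat.mul_pos hd hp) ht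
    (sum_mem hA Finset.univ fun i => hBA (h.mem i)) (h.invE htr hA hBA hG hN hy)
    (h.nonneg htr hN hNy) ht'

/-- module GD, part 1 (cf. `super_of_vanishing` in Psef2): `E` need not have an invariant class. -/
theorem zero_gen [Algebra.EssFiniteType ℂ K] (hn : 1 ≤ n)
    (htr : Algebra.trdeg ℂ K = n) {X : Set (Place ℂ K)} {δ : Place ℂ K → ℝ}
    (hδ : ∀ P ∈ X, 0 ≤ δ P ∧ δ P ≤ 1) {G : Set (K ≃ₐ[ℂ] K)} {L : Place ℂ K → ℝ}
    (hG : ∀ g ∈ G, MPreserves X δ (fun _ => (0 : ℝ)) g) {A : Set (Place ℂ K → ℝ)}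
    (hA : NullGroup n X G L A) (H : NoZeros n X δ G A) (hp : 0 < p) {γ E : Place ℂ K → ℝ}
    (hγ : γ ∈ A) {t : MTensor K (Fin p)} (ht0 : t ≠ 0)
    (hE : ∀ P ∈ X, Divisorial n P → 0 ≤ E P)
    (ht : MAdapted n X δ (fun P => γ P - E P) t) : ∀ P ∈ X, Divisorial n P → E P = 0 := by
  classical
  have htr' : MAdapted n X δ γ t := fun P hPX hP D hD =>
    (ht P hPX hP D hD).mono (by linarith [hE P hPX hP])
  obtain ⟨d, hdd⟩ : ∃ d, Module.finrank (AlgebraicClosure K) (Submodule.span (AlgebraicClosure K)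
    {t : MTensor K (Fin p) | MAdapted n X δ γ t}) = d := ⟨_, rfl⟩
  obtain ⟨s, hsT, hsli, hsspan⟩ := exists_basis_of_set htr
    {t : MTensor K (Fin p) | MAdapted n X δ γ t} hdd
  obtain ⟨c, σ, h⟩ := exists_datum (n := n) (X := X) (δ := δ) (Bs := {γ}) (s := s)
    (b := fun _ => γ) (fun _ => rfl) hsT hsli (by
      rintro _ rfl t ht
      rw [hsspan]
      exact Submodule.subset_span ht)
  obtain ⟨B, hB⟩ := (Submodule.mem_span_range_iff_exists_fun _).mp (h.span γ rfl t htr')
  obtain ⟨i0, hi0⟩ : ∃ i, B i ≠ 0 := by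
    by_contra hno'
    push Not at hno'
    apply ht0
    rw [← hB]
    exact Finset.sum_eq_zero fun i _ => by rw [hno' i, zero_smul]
  have hd : 0 < d := lt_of_le_of_lt (Nat.zero_le _) i0.2
  have h' := h.exchange rfl htr' hB hi0
  obtain ⟨N, y, hN, hy, hNy⟩ := exists_alg_norm h'.c_ne
  have hN' : (0 : ℝ) < N := by exact_mod_cast hN
  intro P0 hP0X hP0
  have hz := h'.zero htr hA (by rintro _ rfl; exact hγ) hG H hp hd hN hy
    (fun P r hr => (hNy P r hr).1) P0 hP0X hP0
  have h1 := h'.order_zero htr (i0 := i0) (E := E) (by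
    rw [Function.update_self, Function.update_self]
    exact ht) hP0X hP0
  have h2 := (hNy P0 _ h1).1
  unfold Ed at hz
  have h3 : -(∑ i, Function.update (fun _ => γ) i0 γ i P0 +
      vT δ σ P0) + E P0 ≤ P0.ord y / N := by
    rw [le_div_iff₀ hN', mul_comm]
    exact h2
  have h4 := hE P0 hP0X hP0
  linarith

/-- The coefficients of a relation are constant. -/
theorem const_gen (h : Datum n X δ Bs s b c σ) [Algebra.EssFiniteType ℂ K]
    (htr : Algebra.trdeg ℂ K = n) {L : Place ℂ K → ℝ} {A : Set (Place ℂ K → ℝ)}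
    (hA : NullGroup n X G L A) (hBA : Bs ⊆ A)
    (hG : ∀ g ∈ G, MPreserves X δ (fun _ => (0 : ℝ)) g) (H : NoZeros n X δ G A)
    (hconst : ∀ z : K, z ≠ 0 → (∀ P ∈ X, Divisorial n P → 0 ≤ P.ord z) →
      ∃ a : ℂ, algebraMap ℂ K a = z) (hdist : ∀ β ∈ Bs, ∀ β' ∈ Bs, QEquiv n X β β' → β = β')
    (hp : 0 < p) {t : MTensor K (Fin p)} {r : Place ℂ K → ℝ}
    (hr : r ∈ Bs) (ht : MAdapted n X δ r t)
    {B : Fin d → AlgebraicClosure K} (hB : ∑ i, B i • s i = t) (i0 : Fin d) :
    ∃ a : ℂ, algebraMap ℂ (AlgebraicClosure K) a = B i0 ∧ (a ≠ 0 → b i0 = r) := by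
  classical
  by_cases hB0 : B i0 = 0
  · exact ⟨0, by rw [map_zero, hB0], fun h => absurd rfl h⟩
  have hd : 0 < d := lt_of_le_of_lt (Nat.zero_le _) i0.2
  have h' := h.exchange hr ht hB hB0
  obtain ⟨N, y, hN, hy, hNy⟩ := exists_alg_norm h.c_ne
  obtain ⟨N', y', hN', hy', hNy'⟩ := exists_alg_norm h'.c_ne
  have hNR : (0 : ℝ) < N := by exact_mod_cast hN
  have hNR' : (0 : ℝ) < N' := by exact_mod_cast hN'
  have hz := h.zero htr hA hBA hG H hp hd hN hy (fun P r hr => (hNy P r hr).1)
  have hz' := h'.zero htr hA hBA hG H hp hd hN' hy' (fun P r hr => (hNy' P r hr).1)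
  have hsum : ∀ P, (∑ i, Function.update b i0 r i P) = (∑ i, b i P) + (r P - b i0 P) := by
    intro P
    have h1 : ∀ i, Function.update b i0 r i P = Function.update (fun i => b i P) i0 (r P) i := by
      intro i
      by_cases hi : i = i0
      · subst hi
        rw [Function.update_self, Function.update_self]
      · rw [Function.update_of_ne hi, Function.update_of_ne hi]
    simp only [h1]
    rw [Finset.sum_update_of_mem (Finset.mem_univ _), ← Finset.add_sum_erase _ (fun i => b i P)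
      (Finset.mem_univ i0), Finset.sdiff_singleton_eq_erase]
    ring
  -- the twists
  have hqr : b i0 = r := by
    refine hdist _ (h.mem i0) _ hr ⟨N * N', y' ^ N / y ^ N', Nat.mul_pos hN hN',
      div_ne_zero (pow_ne_zero _ hy') (pow_ne_zero _ hy), fun P hPX hP => ?_⟩
    have h1 := hz P hPX hP
    have h2 := hz' P hPX hP
    unfold Ed at h1 h2
    rw [hsum] at h2
    have h3 : b i0 P - r P = P.ord y' / N' - P.ord y / N := by linarith
    rw [h3, P.ord_div (pow_ne_zero _ hy') (pow_ne_zero _ hy), P.ord_pow, P.ord_pow]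
    push_cast
    field_simp
  have hupd : Function.update b i0 r = b := by
    rw [← hqr, Function.update_eq_self]
  rw [hupd] at hz'
  have h'' : Datum n X δ Bs (Function.update s i0 t) b (B i0 * c) σ := by
    rw [hupd] at h'
    exact h'
  -- the coefficient is constant
  have hconst' : ∃ a : ℂ, algebraMap ℂ (AlgebraicClosure K) a = B i0 := by
    by_contra hnc
    have htrans : Transcendental ℂ (B i0) := by
      rw [Transcendental]
      exact fun hal => hnc (alg_mem_range hal)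
    obtain ⟨a, f, ha, hf, hay⟩ := exists_nonconst_coeff htrans
    have hf0 : f ≠ 0 := by
      rintro rfl
      exact hf isAlgebraic_zero
    obtain ⟨w, hw⟩ := hconst f hf0 fun P hPX hP => by
      have h1 := h''.order htr hPX hP
      have h2 := (hNy P _ (h.order htr hPX hP)).2
      have h3 := (h1.mul h2).mul (AlgOrd.of_GR (P := P) (r := -(P.ord y : ℝ)) (f := y⁻¹)
        (Or.inr (by rw [P.ord_inv]; push_cast; exact le_rfl)))
      have h4 : B i0 * c * (algebraMap K (AlgebraicClosure K) y / c) *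
          algebraMap K (AlgebraicClosure K) y⁻¹ = B i0 := by
        have h5 := h.c_ne
        have h6 : algebraMap K (AlgebraicClosure K) y ≠ 0 := (map_ne_zero _).mpr hy
        rw [map_inv₀]
        field_simp
      rw [h4] at h3
      have h5 := hay P _ h3
      have h6 := hz P hPX hP
      unfold Ed at h6
      have h7 : (P.ord y : ℝ) = -(N * (∑ i, b i P + vT δ σ P)) := by
        have h8 : (P.ord y : ℝ) = N * (P.ord y / N) := by field_simp
        rw [h8]
        have h9 : (P.ord y : ℝ) / N = -(∑ i, b i P + vT δ σ P) := by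
          linarith
        rw [h9]
        ring
      rw [h7] at h5
      have h8 : (0 : ℝ) ≤ P.ord f := by
        refine le_trans (le_of_eq ?_) h5
        ring
      exact_mod_cast h8
    rw [← hw] at hf
    exact hf (isAlgebraic_algebraMap w)
  obtain ⟨a, ha⟩ := hconst'
  exact ⟨a, ha, fun _ => hqr⟩

/-- module GD, part 2 (cf. `indep_or_super` in Psef2). -/
theorem indep_gen [Algebra.EssFiniteType ℂ K] (hn : 1 ≤ n)
    (htr : Algebra.trdeg ℂ K = n) {X : Set (Place ℂ K)} {δ : Place ℂ K → ℝ}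
    (hδ : ∀ P ∈ X, 0 ≤ δ P ∧ δ P ≤ 1) {G : Set (K ≃ₐ[ℂ] K)} {L : Place ℂ K → ℝ}
    (hG : ∀ g ∈ G, MPreserves X δ (fun _ => (0 : ℝ)) g) {A : Set (Place ℂ K → ℝ)}
    (hA : NullGroup n X G L A) (H : NoZeros n X δ G A)
    (hconst : ∀ z : K, z ≠ 0 → (∀ P ∈ X, Divisorial n P → 0 ≤ P.ord z) →
      ∃ a : ℂ, algebraMap ℂ K a = z) (hp : 0 < p) {N : ℕ} {γ : Fin N → Place ℂ K → ℝ}
    (hγ : ∀ j, γ j ∈ A) (hdist : ∀ i j, QEquiv n X (γ i) (γ j) → γ i = γ j)
    {t : Fin N → MTensor K (Fin p)} (ht : ∀ j, MAdapted n X δ (γ j) (t j))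
    (hti : ∀ ρ : Place ℂ K → ℝ, LinearIndependent ℂ fun j : {j : Fin N // γ j = ρ} => t j) :
    LinearIndependent (AlgebraicClosure K) t := by
  classical
  let T : Set (MTensor K (Fin p)) := {t | ∃ ρ ∈ Set.range γ, MAdapted n X δ ρ t}
  obtain ⟨d, hdd⟩ : ∃ d, Module.finrank (AlgebraicClosure K)
    (Submodule.span (AlgebraicClosure K) T) = d := ⟨_, rfl⟩
  obtain ⟨s, hsT, hsli, hsspan⟩ := exists_basis_of_set htr T hdd
  choose q hq hsq using hsT
  obtain ⟨c, σ, h⟩ := exists_datum (n := n) (X := X) (δ := δ) (Bs := Set.range γ)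
    (s := s) (b := q) hq hsq hsli (by
      intro ρ hρ t ht
      rw [hsspan]
      exact Submodule.subset_span ⟨ρ, hρ, ht⟩)
  choose B hB using fun j => (Submodule.mem_span_range_iff_exists_fun _).mp
    (h.span (γ j) ⟨j, rfl⟩ (t j) (ht j))
  have hc := fun j i => const_gen h htr hA (by rintro _ ⟨j, rfl⟩; exact hγ j) hG H hconst
    (by rintro _ ⟨j, rfl⟩ _ ⟨j', rfl⟩ h; exact hdist j j' h) hp
    (⟨j, rfl⟩ : γ j ∈ Set.range γ) (ht j) (hB j) i
  choose b hb hbq using hc
  refine indep_of_const hsli (B := b) (fun j => ?_) fun g hg => ?_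
  · rw [← hB j]
    exact Finset.sum_congr rfl fun i _ => by rw [hb]
  · -- the relation for each twist
    have h1 : ∀ i, ∑ j, algebraMap ℂ (AlgebraicClosure K) (g j * b j i) = 0 := by
      have hsli' := hsli
      rw [Fintype.linearIndependent_iff] at hsli'
      refine hsli' _ ?_
      rw [← hg]
      simp only [Finset.sum_smul]
      rw [Finset.sum_comm]
      refine Finset.sum_congr rfl fun j _ => ?_
      rw [← hB j, Finset.smul_sum]
      exact Finset.sum_congr rfl fun i _ => by rw [smul_smul, map_mul, hb]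
    funext j0
    have h2 := hti (γ j0)
    rw [Fintype.linearIndependent_iff] at h2
    refine h2 (fun j => g j) ?_ ⟨j0, rfl⟩
    have h3 : ∀ j, g j • t j = ∑ i, algebraMap ℂ (AlgebraicClosure K) (g j * b j i) • s i := by
      intro j
      have h4 : g j • t j = algebraMap ℂ (AlgebraicClosure K) (g j) • t j := by
        ext D
        change g j • t j D = algebraMap ℂ (AlgebraicClosure K) (g j) * t j D
        rw [Algebra.smul_def]
      rw [h4, ← hB j, Finset.smul_sum]
      exact Finset.sum_congr rfl fun i _ => by rw [smul_smul, map_mul, hb]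
    change ∑ j : {j : Fin N // γ j = γ j0}, g j • t j = 0
    have h7 : ∑ j : {j : Fin N // γ j = γ j0}, g j • t j = ∑ j : {j : Fin N // γ j = γ j0},
        ∑ i, algebraMap ℂ (AlgebraicClosure K) (g j * b j i) • s i :=
      Finset.sum_congr rfl fun j _ => h3 j
    rw [h7, Finset.sum_comm]
    refine Finset.sum_eq_zero fun i _ => ?_
    rw [← Finset.sum_smul]
    by_cases hi : q i = γ j0
    · have h5 : ∑ j : {j : Fin N // γ j = γ j0},
          algebraMap ℂ (AlgebraicClosure K) (g j * b j i) =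
          ∑ j, algebraMap ℂ (AlgebraicClosure K) (g j * b j i) := by
        rw [← Finset.sum_subtype (Finset.univ.filter fun j => γ j = γ j0) (by simp)
          fun j => algebraMap ℂ (AlgebraicClosure K) (g j * b j i)]
        refine Finset.sum_subset (Finset.subset_univ _) fun j _ hj => ?_
        rw [Finset.mem_filter, not_and] at hj
        have h6 : b j i = 0 := by
          by_contra hne
          exact hj (Finset.mem_univ _) ((hbq j i hne).symm.trans hi)
        rw [h6, mul_zero, map_zero]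
      rw [h5, h1 i, zero_smul]
    · have h5 : ∀ j : {j : Fin N // γ j = γ j0}, b j i = 0 := by
        intro j
        by_contra hne
        exact hi ((hbq j i hne).trans j.2)
      rw [Finset.sum_eq_zero fun j _ => by rw [h5 j, mul_zero, map_zero], zero_smul]

end many

end Pool.Agent.Zk17.TF
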